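import Pool.Agent.TH766.MC.Main

/-!
# `A¹`-uniruledness and the logarithmic Kodaira dimension on covers of arrangements

Let `ℓ i = 0` be `q` hyperplanes in projective `n`-space, an arbitrary arrangement (any number of
hyperplanes, in any position) with exactly `c` irreducible components (`Splits`: `c` is the largest
number of groups into which the variables can be divided, in suitable linear coordinates, such that
every `ℓ i` is a form in the variables of one group). Let `X` be an abelian cover of projective space
branched along the arrangement (`Cover`), `U` an arbitrary set of the hyperplanes, and
`X° = X \ ⋃ {ℓ i = 0, i ∈ U}`. The multiplicative group is assumed to act freely on the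
coordinates of the points of `X°` (`FreeU`), and the multiplicities of the cover over the remaining
hyperplanes are at least `n + 3 - c` (`MultU`), or at least `n + 1` if `c = 1` and there are at least
`n + 3` different hyperplanes. Then the following are equivalent:

* `X°` is `A¹`-uniruled;
* the logarithmic Kodaira dimension of `X°` is `-∞`;
* the logarithmic canonical bundle of `X°` is not pseudo-effective;
* the arrangement has a free part: it is a join of two arrangements such that all hyperplanes of `U`
  come from the second one.

The function-field language of the starting repository is used: the boundary is given by the set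
`OffD X.ℓ U x` of the places of the function field whose centre is not on `X°`. For `U = ∅` and `X`
smooth the first property is that `X` is uniruled.

The proof is the theorem `tfae` of `Pool/Agent/TH766/MC/Main`.
-/

set_option autoImplicit false

open FF Pool.Agent.W602.Cov Pool.Agent.W602.Cov.Cover Pool.Agent.W602.GT Pool.Agent.TH766.MC

namespace Pool.Agent.Results.MP_410da7_ag.ArrangementCovers

/-- **`A¹`-uniruled if and only if the logarithmic Kodaira dimension is `-∞`.** Let `X` be an abelian
cover of projective `n`-space branched along an arrangement with exactly `c` irreducible components,
`U` any set of the hyperplanes, and let the multiplicities of the cover over the complement of the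
hyperplanes in `U` be at least `n + 3 - c`, or at least `n + 1` if `c = 1` and there are `n + 3`
different hyperplanes. Then for `X° = X \ ⋃ {ℓ i = 0, i ∈ U}` (the places in `OffD X.ℓ U x` are those
without centre on it) are equivalent: `X°` is `A¹`-uniruled; its logarithmic Kodaira dimension is
`-∞`; its logarithmic canonical bundle is not pseudo-effective; the arrangement has a free part. -/
theorem result (n q r : ℕ) (hn : 1 ≤ n) (X : Cover n q r) (U : Finset (Fin q)) (hF : X.FreeU U)
    (c R : ℕ) (hc : Splits X.ℓ c) (hc' : ¬ Splits X.ℓ (c + 1))
    (hR : R + c = n + 3 ∨ (c = 1 ∧ Many X.ℓ ∧ R = n + 1)) (hm : MultU X U R)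
    (K : Type) [Field K] [Algebra ℂ K] (x : Fin (n + 1) → K) (y : Fin r → K)
    (hK : X.FunctionField K x y) :
    [Pool.Agent.W619.PL.IsA1Uniruled ℂ K n (OffD X.ℓ U x), ¬ KodGe ℂ K n (OffD X.ℓ U x) 0,
      ¬ Psef ℂ K n (OffD X.ℓ U x), FreePart X.ℓ U].TFAE :=
  tfae hn X hF hK hc hc' hR hm

end Pool.Agent.Results.MP_410da7_ag.ArrangementCovers
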