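import Pool.Agent.R882.TColL

/-!
# Logarithmic Kodaira dimension `-∞` and `A¹`-uniruledness for the images of open nondegenerate
complete intersections

Let `V` be a component, of dimension `n ≥ 1`, of the set of common zeros in the torus of a system `f`
of Laurent polynomials which is nondegenerate in the sense of Khovanskii, with arbitrary Newton
polytopes. Let `t l = x ^ (w l)`, `l < n`, and `y = x ^ v` be monomials such that `ℂ(V) = ℂ(t)(y)` has
finite degree `b` over `ℂ(t)`. Let `S` be a set of integral vectors; the prime divisors `P` over `V`
for which the vector of the orders `ord_P (x i)` is in `S` are the boundary of an open variety `V°`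
birational to `V`. Suppose that, for one of the indices `l0`, all vectors `c` in `S` which are
orthogonal to the `w l`, `l ≠ l0`, satisfy `⟨c, w l0⟩ < 0`. This means that `V°` has a map to an open
variety which is birational to the torus of the `t l` and contains the affine lines with the coordinate
`t l0` over the generic point of the torus of the other `t l`. For example, `S` may consist of the
vectors `c` with `⟨c, w l0⟩ < 0`, or of those with `⟨c, w l0⟩ < 0` or `⟨c, w l⟩ ≠ 0` for some `l ≠ l0`;
then `V°` is the part of a partial compactification of `V` where `t l0` is finite (and the other `t l`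
are finite and not zero).

Let `s` be a natural number such that for all divisors `c < b` of `b` there is a column: an `M` with
`s ≤ c (M + 1)` and a `u` such that the `u + j v` and the `u + j v + M w l`, `j < c`, satisfy the
inequalities of the Newton polytopes for all integral vectors, and the inequalities of the Fine
interior for the vectors which are not in `S` (`InPoly`). For example, if `V` is a general hypersurface
of multidegree `(e 1, ..., e n, b)` in `(ℙ ^ 1) ^ (n + 1)`, `b ≥ 2`, and `V°` the part where `t 1` is
finite, then the condition is that `e 1 ≥ s` and `e l ≥ s + 1` for the other `l`.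

Let `V° → W°` be a dominant rational map, of degree `r`, which is proper over the prime divisors: the
boundary of `V°` is the preimage of the boundary of the open variety `W°`. The map is arbitrary
otherwise.

The theorem says that if there are columns for `s = r` then these are equivalent: `W°` has no
logarithmic canonical forms; the logarithmic Kodaira dimension of `W°` is `-∞`; `K_W + D_W` is not
pseudo-effective; `W°` is `A¹`-uniruled; `V° → W°` factors through the torus of the `t l`. If there are
columns for `s = 2 r` then they are also equivalent to: `W°` is not of log general type.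

Proof. Let `ω` be the residue form on `V`. If the map does not factor through the torus of the `t l`
then the subfield `F = ℂ(W)(t)` of `ℂ(V)` is larger than `ℂ(t)`, so its codegree `c` is a divisor of `b`
smaller than `b`, and for some `j < c` the trace of `x ^ u y ^ j ω` on the variety with the function
field `F` is not zero. The degree of `F` over `ℂ(W)` is `r / c ≤ M + 1`, and `t` separates the points
of the fibres, so the traces on `W` of the logarithmic forms `A(t) x ^ u y ^ j ω`, where `A` has degree
at most `M`, are not all zero. If the map factors through the torus of the `t l` then the affine lines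
of this torus give affine lines in `W°`.
-/

set_option autoImplicit false
set_option linter.overlappingInstances false
set_option maxHeartbeats 4000000
set_option synthInstance.maxHeartbeats 400000

open FF Module Pool.Agent Pool.Agent.W602.GT Pool.Agent.R885
open Pool.Agent.W619.PL (IsA1Uniruled)

namespace Pool.Agent.Results.MP_410da7_ag.ImagesOverAffineLine

/-- The Laurent polynomials `f l` are nondegenerate: the initial parts `ini v (f l)` have linearly
independent logarithmic gradients at all their common zeros in the torus. -/
def Nondegenerate {r q : ℕ} (f : Fin q → (Fin r → ℤ) →₀ ℂ) : Prop :=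
  ∀ v : Fin r → ℤ, ∀ c : Fin r → ℂ, (∀ i, c i ≠ 0) → (∀ l, ev c (ini v (f l)) = 0) →
    LinearIndependent ℂ fun l => gr c (ini v (f l))

/-- `x` is the generic point of a subvariety, with function field `K`, of the set of common zeros
of the `f l` in the torus `(ℂ^*) ^ r`. -/
def IsGenericPoint {K : Type} [Field K] [Algebra ℂ K] {r q : ℕ} (f : Fin q → (Fin r → ℤ) →₀ ℂ)
    (x : Fin r → K) : Prop :=
  (∀ i, x i ≠ 0) ∧ (∀ l, ev x (f l) = 0) ∧ IntermediateField.adjoin ℂ (Set.range x) = ⊤

/-- The place `P` is in the boundary: the vector of the orders of the coordinates is in `S`. -/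
def Boundary {K : Type} [Field K] [Algebra ℂ K] {r : ℕ} (S : Set (Fin r → ℤ)) (x : Fin r → K)
    (P : Place ℂ K) : Prop :=
  (fun i => P.ord (x i)) ∈ S

/-- The integral vector `u` is in the Minkowski sum of the Newton polytopes, and it satisfies the
inequalities of the Fine interior for all `v` which are not in `S`. -/
def InPoly {r q : ℕ} (S : Set (Fin r → ℤ)) (f : Fin q → (Fin r → ℤ) →₀ ℂ) (u : Fin r → ℤ) : Prop :=
  ∀ v : Fin r → ℤ, v ≠ 0 → ∑ l, mn v (f l) ≤ u ⬝ᵥ v ∧ (v ∉ S → 1 + ∑ l, mn v (f l) ≤ u ⬝ᵥ v)

/-- For all divisors `c < b` of `b` there is a column of length `c` and of width `M`,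
`s ≤ c (M + 1)`, in the direction `v`. -/
def HasColumns {m q N : ℕ} (S : Set (Fin m → ℤ)) (f : Fin q → (Fin m → ℤ) →₀ ℂ) (v : Fin m → ℤ)
    (w : Fin N → Fin m → ℤ) (b s : ℕ) : Prop :=
  ∀ c : ℕ, c ∣ b → c < b → ∃ (M : ℕ) (u : Fin m → ℤ), s ≤ c * (M + 1) ∧
    ∀ j < c, InPoly S f (u + (j : ℤ) • v) ∧ ∀ l, InPoly S f (u + (j : ℤ) • v + (M : ℤ) • w l)

/-- The logarithmic geometric genus is zero: the only canonical form with at most logarithmic poles
which is regular at all prime divisors that are not in the boundary is `0`. -/
def LogGenusZero (L : Type) [Field L] [Algebra ℂ L] (n : ℕ) (Bd : Place ℂ L → Prop) : Prop :=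
  ∀ ω : (Fin n → Derivation ℂ L L) → L, LogSec ℂ L n 1 Bd ω → ∀ D, ω D = 0

/-- **Images of open nondegenerate complete intersections over the affine line.** Let `V` be a
component, of dimension `n`, of the set of common zeros of a nondegenerate system `f`, with function
field `K` and generic point `x`, and `V°` the open variety with the boundary given by `S`; let `t l`
and `y` be the monomials with the exponents `w l` and `v`, `K = ℂ(t)(y)` finite over `ℂ(t)`, and let
all `c` in `S` which are orthogonal to the `w l`, `l ≠ l0`, satisfy `⟨w l0, c⟩ < 0`. Let `V° → W°` be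
a dominant rational map of finite degree such that the boundary of `V°` is the preimage of the
boundary `Bd` of `W°`, and `L` the function field of `W°`. If there are columns for `[K : L]` then
these are equivalent: `W°` has no logarithmic canonical forms; `κ(W°) = -∞`; `K_W + D_W` is not
pseudo-effective; `W°` is `A¹`-uniruled; `L` is contained in `ℂ(t)`. If there are columns for
`2 [K : L]` then `W°` is of log general type if and only if `L` is not contained in `ℂ(t)`. -/
theorem result {n q : ℕ} (hn : 1 ≤ n) {f : Fin q → (Fin (n + q) → ℤ) →₀ ℂ}
    (hf : Nondegenerate f) {K : Type} [Field K] [Algebra ℂ K] {x : Fin (n + q) → K}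
    (hx : IsGenericPoint f x) (hK : Algebra.trdeg ℂ K = (n : ℕ)) (S : Set (Fin (n + q) → ℤ))
    {v : Fin (n + q) → ℤ} {w : Fin n → Fin (n + q) → ℤ} {t : Fin n → K}
    (ht : ∀ l, t l = R885.mono x (w l))
    [FiniteDimensional (IntermediateField.adjoin ℂ (Set.range t)) K]
    (hy : IntermediateField.adjoin (IntermediateField.adjoin ℂ (Set.range t))
      {R885.mono x v} = ⊤) {l0 : Fin n}
    (hS : ∀ c ∈ S, (∀ l, l ≠ l0 → w l ⬝ᵥ c = 0) → w l0 ⬝ᵥ c < 0)
    (L : Type) [Field L] [Algebra ℂ L] [Algebra L K] [IsScalarTower ℂ L K]
    [FiniteDimensional L K] {Bd : Place ℂ L → Prop}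
    (hBd : ∀ (P : Place ℂ L) (Q : Place ℂ K) (e : ℕ), Over Q P e → (Bd P ↔ Boundary S x Q)) :
    (HasColumns S f v w (Module.finrank (IntermediateField.adjoin ℂ (Set.range t)) K)
        (Module.finrank L K) →
      [LogGenusZero L n Bd, ¬ KodGe ℂ L n Bd 0, ¬ Psef ℂ L n Bd, IsA1Uniruled ℂ L n Bd,
        ∀ g : L, algebraMap L K g ∈ IntermediateField.adjoin ℂ (Set.range t)].TFAE) ∧
    (HasColumns S f v w (Module.finrank (IntermediateField.adjoin ℂ (Set.range t)) K)
        (2 * Module.finrank L K) →
      (¬ LogGeneralType ℂ L n Bd ↔
        ∀ g : L, algebraMap L K g ∈ IntermediateField.adjoin ℂ (Set.range t))) := by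
  classical
  obtain ⟨hbase, hadj, hpos⟩ := Pool.Agent.R882.LT.col_positive_log (fun v => hf v) hx.1 hx.2.1
    hx.2.2 hK S ht hy
  have hR := Pool.Agent.R882.LT.a1Ruled_torus hx.1 hK S ht hS hadj
  obtain ⟨h1, h2⟩ := Pool.Agent.R882.LT.over_log hn hbase (BK := fun P => vec P x ∈ S) hR L
    (BL := Bd) hBd
  have hfac : Pool.Agent.R882.Over.FactorsThrough L (Fin.cons 1 t : Fin (n + 1) → K) ↔
      ∀ g : L, algebraMap L K g ∈ IntermediateField.adjoin ℂ (Set.range t) := by
    unfold Pool.Agent.R882.Over.FactorsThrough
    rw [hadj]
  rw [hfac] at h1 h2
  exact ⟨fun h => h1 (hpos _ h), fun h => h2 (hpos _ h)⟩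

end Pool.Agent.Results.MP_410da7_ag.ImagesOverAffineLine
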