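import Pool.Agent.R885.W9

/-!
# The logarithmic Kodaira dimension of nondegenerate open varieties

Let `f 1, ..., f q` and `h 1, ..., h p` be Laurent polynomials in `n + q` variables over `ℂ`,
`n ≥ 1`, and let `X₀` be an irreducible component, of dimension `n`, of the set of the common zeros
of the `f l` in the torus `(ℂ^*)^(n + q)`; its function field is `L`, the `x i` are the coordinates on
`X₀`. Suppose that the pair is nondegenerate along `X₀`: for every integral vector `v` and every
subset `V` of `1, ..., p` the logarithmic gradients of the initial parts `ini v (f l)`, `ini v (h j)`,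
`j ∈ V` (the sums of the terms on which the linear function `v` is minimal) are linearly independent
at the points of the initial degeneration of `X₀` in the direction `v` (the common zeros in the torus
of the `ini v g`, for all `g` which vanish on `X₀`) at which the `ini v (h j)`, `j ∈ V`, vanish. This
is true if the systems are nondegenerate in the sense of Khovanskii, so for generic coefficients.

Let `σ` be a set of integral vectors which is closed under the sums which are not zero, and
saturated, for instance the integral vectors of a convex cone. The boundary `D₀` on `X₀` is reduced: it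
consists of the divisors `h j = 0` and of the divisors at infinity for which the vector `v` of the
orders of the `x i` is not in `σ`. These are the multiplicities `bdry (coneWeight σ) 1 x h`.

The pairs `(X, D)` of the theorem are the projective pairs which are commensurable with `(X₀, D₀)`: the
function field `K` of `X` and the function field `L` of `X₀` have a common finite extension `M`, to which
`K_X + D` and `K_{X₀} + D₀` have the same pull-back, and the log discrepancies of `(X, D)` are at least
the ones given by `D₀`. For instance `(X, D)` may be birational to `X₀` (`K = L = M`), or `X ∖ D` may be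
a finite etale cover of such an open variety, or a quotient by a finite group.


For instance `X` may be a smooth toroidal compactification of `X₀`. If `X` is smooth and `D` has
simple normal crossings then `κ (K_X + D)` is the logarithmic Kodaira dimension of the open variety
`X ∖ D`. If `σ` is the set of the vectors with nonnegative coordinates then `X ∖ D` may be a
nondegenerate complete intersection in the affine space, or the complement of hypersurfaces in it; if
`σ` is the set of all vectors, it is the complement of the divisors `h j = 0` in a projective variety.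

**Theorem.** If the logarithmic Kodaira dimension is `-∞` then `K_X + D` is not pseudoeffective. More
precisely, `κ (K_X + D) = ν (K_X + D)`.

The proof is by induction on `q`, for the systems of the class `VSys`. Such a system consists of
nondegenerate equations, a weight `A`, a concave piecewise linear function `Ψ` (at the beginning
`∑ j, c j * min ⟨supp (h j), v⟩`) such that `A + Ψ - 1` is superadditive, and a formal product of
rational powers of rational functions, the orders of which bound the multiplicities from above and,
together with `A + Ψ`, the orders of the residue form from below. Let `ε ≥ 0` be the smallest number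
such that the polytope of the `u` with
`⟨u, v⟩ ≥ A v + Ψ v - ε |v| + ∑ l, min ⟨supp (f l), v⟩` for all `v ≠ 0` is not empty (`exists_epsV`). If
`ε = 0`, or if the map to the torus of this polytope is not generically finite, the generic fibre of
this map is treated by a finite set of tight vectors of the polytope, which generates them and is
closed under the sums along which `1 - A - Ψ` is additive (`exists_tightV`, `VSys.pos`, `VSys.neg`). In
the remaining case there is a circuit of `m + 1` tight vectors `s a`, `m ≥ 1`, along which exactly `m`
of the equations are not constant (`exc_arithV`); they can be solved rationally (`Exc.solve`), and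
eliminated together with `m` variables (`VSys.elim`). The solutions are new factors of the formal
product, with the exponents `1 - A (s a) - Ψ (s a)`, which may be negative, and `A` and `Ψ` are
transferred to the smaller torus (`Anew`, `Pnew`). Sections are pulled back to a Galois cover of `X` and
`X₀`; conversely, the elementary symmetric functions of the translates of sections on the cover are
sections of multiples of the divisor (`w0_desc`), and the traces of the products of a section with the
elements of a basis show that the numerical dimension of the cover is not larger (`cov_num`).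
-/

set_option autoImplicit false

open FF IntermediateField Pool.Agent Pool.Agent.W602.GT Pool.Agent.Y172 Pool.Agent.Y191
  Pool.Agent.Y174 Pool.Agent.R885

namespace Pool.Agent.Results.MP_410da7_ag.NondegenerateComplements

section

variable {L : Type} [Field L] [Algebra ℂ L]

/-- `x` is the generic point of a subvariety `X₀` of dimension `n`, with function field `L`, of the
set of common zeros of the `f l` in the torus `(ℂ^*) ^ r`, not contained in the sets `h j = 0`. -/
def IsGenericPoint {r q p : ℕ} (n : ℕ) (f : Fin q → (Fin r → ℤ) →₀ ℂ)
    (h : Fin p → (Fin r → ℤ) →₀ ℂ) (x : Fin r → L) : Prop :=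
  (∀ i, x i ≠ 0) ∧ (∀ l, ev x (f l) = 0) ∧ (∀ j, ev x (h j) ≠ 0) ∧
    IntermediateField.adjoin ℂ (Set.range x) = ⊤ ∧ Algebra.trdeg ℂ L = (n : ℕ)

/-- The pair is nondegenerate along the subvariety `X₀` of the torus with the generic point `x`: for
all subsets `V` and all integral vectors `v`, the logarithmic gradients of the initial parts of the
`f l` and of the `h j`, `j ∈ V`, are linearly independent at the points `c` of the initial
degeneration of `X₀` at which the initial parts of the `h j`, `j ∈ V`, vanish. -/
def Nondegenerate {r q p : ℕ} (f : Fin q → (Fin r → ℤ) →₀ ℂ) (h : Fin p → (Fin r → ℤ) →₀ ℂ)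
    (x : Fin r → L) : Prop :=
  ∀ (V : Finset (Fin p)) (v : Fin r → ℤ) (c : Fin r → ℂ), (∀ i, c i ≠ 0) →
    (∀ g : (Fin r → ℤ) →₀ ℂ, ev x g = 0 → ev c (ini v g) = 0) →
      (∀ j ∈ V, ev c (ini v (h j)) = 0) →
        LinearIndependent ℂ (Sum.elim (fun l => gr c (ini v (f l))) fun j : V => gr c (ini v (h j)))

end

section

variable {K L : Type} [Field K] [Field L] [Algebra ℂ K] [Algebra ℂ L]

/-- `(X, Δ)` is a projective pair with function field `K` which is commensurable with the pair
`(X₀, Δ₀)` with function field `L`, where `b` gives the multiplicities of `Δ₀`: the pull-backs of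
`K_X + Δ` and of `K_{X₀} + Δ₀` to the common finite extension `M` of `K` and `L` coincide. That is, if
the place `P'` of `M` lies over the prime divisor `P` of `X` and over the place `Q` of `L`, with the
ramification indices `e` and `e'`, then `e (1 - Δ P) = e' (1 - b Q)`. Moreover, for all divisors `P`
over `X`, the log discrepancy of `(X, Δ)` along `P` is at least `e' (1 - b Q) / e`. -/
structure IsCommensurable (M : Type) [Field M] [Algebra ℂ M] [Algebra K M] [Algebra L M]
    (b : Place ℂ L → ℚ) {N : ℕ} (y : Fin (N + 1) → K) (n : ℕ) (Δ : Place ℂ K → ℚ) : Prop where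
  normal : NormalModel y
  effective : Effective y Δ
  mult : ∀ P, IsPrimeDivisor y P → ∀ (P' : Place ℂ M) (Q : Place ℂ L) (e e' : ℕ),
    LiesOn P' P e → LiesOn P' Q e' → (e : ℚ) * (1 - Δ P) = e' * (1 - b Q)
  disc : ∀ P, Divisorial n P → ∀ (P' : Place ℂ M) (Q : Place ℂ L) (e e' : ℕ),
    LiesOn P' P e → LiesOn P' Q e' → LogDisc y n Δ P (e' * (1 - b Q) / e)

end

/-- The set `σ` of integral vectors is closed under the sums which are not zero, and saturated: for
instance the integral vectors of a convex cone, the empty set, or all vectors. -/
structure IsCone {r : ℕ} (σ : Set (Fin r → ℤ)) : Prop where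
  add : ∀ v w, v ∈ σ → w ∈ σ → v + w ≠ 0 → v + w ∈ σ
  sat : ∀ (g : ℤ) v, 0 < g → v ≠ 0 → g • v ∈ σ → v ∈ σ

open scoped Classical in
/-- The weight of `σ`: it is `1` on `σ` and `0` outside, so that the divisors at infinity with the
vector `v` have the multiplicity `0` if `v ∈ σ` and `1` otherwise. -/
noncomputable def coneWeight {r : ℕ} (σ : Set (Fin r → ℤ)) (v : Fin r → ℤ) : ℚ :=
  if v ∈ σ then 1 else 0

theorem coneWeight_le {r : ℕ} (σ : Set (Fin r → ℤ)) (v : Fin r → ℤ) : coneWeight σ v ≤ 1 := by
  unfold coneWeight
  split_ifs
  · exact le_rfl
  · exact zero_le_one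

theorem coneWeight_nonneg {r : ℕ} (σ : Set (Fin r → ℤ)) (v : Fin r → ℤ) : 0 ≤ coneWeight σ v := by
  unfold coneWeight
  split_ifs
  · exact zero_le_one
  · exact le_rfl

theorem IsCone.weight {r : ℕ} {σ : Set (Fin r → ℤ)} (h : IsCone σ) :
    R885.N.IsWeight (coneWeight σ) where
  nonneg v _ := coneWeight_nonneg σ v
  le_one v := coneWeight_le σ v
  denom := by
    refine ⟨1, le_rfl, fun v => ?_⟩
    unfold coneWeight
    split_ifs
    · exact ⟨1, by norm_num⟩
    · exact ⟨0, by norm_num⟩
  add v w _ _ hvw := by
    have h0 := coneWeight_nonneg σ (v + w)
    by_cases hv : v ∈ σ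
    · by_cases hw : w ∈ σ
      · have h1 : coneWeight σ (v + w) = 1 := if_pos (h.add v w hv hw hvw)
        have h2 := coneWeight_le σ v
        have h3 := coneWeight_le σ w
        linarith
      · have h1 : coneWeight σ w = 0 := if_neg hw
        have h2 := coneWeight_le σ v
        linarith
    · have h1 : coneWeight σ v = 0 := if_neg hv
      have h2 := coneWeight_le σ w
      linarith
  smul g v hg hv := by
    by_cases hgv : g • v ∈ σ
    · have h1 : coneWeight σ v = 1 := if_pos (h.sat g v hg hv hgv)
      have h2 : (1 : ℚ) ≤ g := by exact_mod_cast hg
      have h3 := coneWeight_le σ (g • v)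
      rw [h1, mul_one]
      exact h3.trans h2
    · have h1 : coneWeight σ (g • v) = 0 := if_neg hgv
      rw [h1]
      exact mul_nonneg (by exact_mod_cast hg.le) (coneWeight_nonneg σ v)

/-- `κ (K_X + Δ) = ν (K_X + Δ)`: either both are equal to `d ≥ 0`, for all effective integral
divisors `A` in the definition of `ν`, or both are `-∞` and `K_X + Δ` is not pseudoeffective. -/
def EqualDimensions {K : Type} [Field K] [Algebra ℂ K] {N : ℕ} (y : Fin (N + 1) → K) (n : ℕ)
    (Δ : Place ℂ K → ℚ) : Prop :=
  (∃ d : ℕ, d ≤ n ∧ kodairaDim y n Δ = (d : WithBot ℕ) ∧
    ∀ A, Effective y A → Integral y A → numericalDim y n Δ A = (d : EReal)) ∨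
  (kodairaDim y n Δ = ⊥ ∧ ∀ A, Effective y A →
    (∃ M0 : ℕ, ∀ m : ℕ, M0 ≤ m → h0 y n m (m • Δ + A) = 0) ∧ numericalDim y n Δ A = ⊥)

/-- **Logarithmic Kodaira dimension.** Let `n ≥ 1`, let `f`, `h` be Laurent polynomials in `n + q`
variables, let `x` be the generic point of a component `X₀` of the set of common zeros of the `f l` in
the torus, such that the pair is nondegenerate along `X₀`, let `σ` be a saturated set of integral
vectors which is closed under nonzero sums, and let `D₀` be the sum of the divisors `h j = 0` and of the
divisors at infinity with a vector outside `σ`. Let `(X, D)` be a projective pair with function field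
`K`, and let `M` be a finite extension of `K` and of `L` such that the pull-backs of `K_X + D` and of
`K_{X₀} + D₀` to `M` coincide. Then `κ (K_X + D) = ν (K_X + D)`; so `K_X + D` is not pseudoeffective if
`κ (K_X + D) = -∞`. -/
theorem result {n q p : ℕ} (hn : 1 ≤ n) {f : Fin q → (Fin (n + q) → ℤ) →₀ ℂ}
    {h : Fin p → (Fin (n + q) → ℤ) →₀ ℂ} {K L M : Type} [Field K] [Field L] [Field M]
    [Algebra ℂ K] [Algebra ℂ L] [Algebra ℂ M] [Algebra K M] [Algebra L M] [IsScalarTower ℂ K M]
    [IsScalarTower ℂ L M] [FiniteDimensional K M] [FiniteDimensional L M] {x : Fin (n + q) → L}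
    (hx : IsGenericPoint n f h x) (hfh : Nondegenerate f h x) {σ : Set (Fin (n + q) → ℤ)}
    (hσ : IsCone σ) {N : ℕ} {y : Fin (N + 1) → K} {D : Place ℂ K → ℚ}
    (hy : IsCommensurable M (bdry (coneWeight σ) (fun _ => 1) x h) y n D) :
    EqualDimensions y n D ∧ (kodairaDim y n D = ⊥ →
      ∀ A, Effective y A → ∃ M0 : ℕ, ∀ m : ℕ, M0 ≤ m → h0 y n m (m • D + A) = 0) := by
  have hq := (R885.N.qfinalY (M := M) hn hx.2.2.2.2 hx.1 hx.2.2.2.1 hx.2.1 hx.2.2.1 hfh hσ.weight
    (fun _ => ⟨zero_le_one, le_rfl⟩) ⟨hy.normal, hy.effective, hy.mult, hy.disc⟩).1
  obtain ⟨htr, δ, hδ, hm, hdisc⟩ := hq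
  have h1 : EqualDimensions y n D := R885.N.equalB htr hδ hy.normal hy.effective hm hdisc
  refine ⟨h1, fun hκ A hA => ?_⟩
  rcases h1 with ⟨d, hd, h2, -⟩ | ⟨-, h2⟩
  · rw [hκ] at h2
    exact absurd h2.symm WithBot.coe_ne_bot
  · exact (h2 A hA).1

end Pool.Agent.Results.MP_410da7_ag.NondegenerateComplements
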