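import Pool.Agent.R871.SG.PtsB

/-!
MP_410da7_ag, Q1: covering families of affine lines and entire curves of slow growth.
-/

set_option autoImplicit false

namespace Pool.Agent.Results.MP_410da7_ag.SlowCurvesMeasure

open MvPolynomial MeasureTheory Pool.Agent.R871.SG

/-- Let `V = {F = 0}` be a closed subvariety of `ℙⁿ × ℂᵐ`; for instance, `V` is projective, or affine,
or the complement of a hypersurface section in a projective variety. Let `μ` be a measure on the space
of homogeneous and affine coordinates `ℂⁿ⁺¹ × ℂᵐ` which is finite on compact sets; for instance, the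
volume of the cone over `V`, or the point mass at a point. The set of points on images of nonconstant
algebraic maps from the affine line to `V` has measure zero, if and only if there is a function `φ`
with `φ r / log r → ∞` for `r → ∞` such that the set of points on nonconstant entire curves `f` in
`V` with `log ‖f z‖ ≤ φ r` for `‖z‖ ≤ r`, for arbitrarily large `r`, has measure zero. -/
theorem result {n m : ℕ} {ι : Type} (F : ι → Pol2 n m) (hF : ∀ i, ∃ d, (F i).IsHomogeneous d)
    (μ : Measure (Crd n m)) [IsFiniteMeasureOnCompacts μ] :
    μ {x | OnAlg F x} = 0 ↔ ∃ φ : ℝ → ℝ, Grows φ ∧ μ {x | OnSlow F φ x} = 0 :=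
  measure_iff F hF μ

end Pool.Agent.Results.MP_410da7_ag.SlowCurvesMeasure
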